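import Pool.Agent.Q297.SO.Final

/-!
A finitely generated solvable group of interval exchanges with flips need not be realizable.
-/

namespace Pool.Agent.Results.MP_f6bc98_an.SolvableNotRealizable

open Pool.Agent.Q297.SO

/-- There is a finitely generated solvable subgroup of the group of interval exchanges with flips
that does not lift to a group of genuine permutations of the circle. -/
theorem result : ∃ Γ : Subgroup PC,
    Γ ≤ IETflip ∧ Γ.FG ∧ Group.IsSolvable Γ ∧ ¬ Realizable Γ := main

end Pool.Agent.Results.MP_f6bc98_an.SolvableNotRealizable
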